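import Pool.Agent.H97.OneRadius

set_option autoImplicit false

namespace Pool.Agent.Results.MP_a19bc9_an.Analytic

open Pool.Agent.H97.OneRadius

/-- For every `n ≥ 1` there is a bounded real-analytic function on the unit ball of `ℂⁿ` with the
one-radius property for which the invariant mean value identity fails at some point and radius
(so it is not `M`-harmonic). -/
theorem result : ∀ n : ℕ, 1 ≤ n → ∃ u : (Fin n → ℂ) → ℂ,
    AnalyticOnNhd ℝ u (Ball n) ∧ (∃ M : ℝ, ∀ z ∈ Ball n, ‖u z‖ ≤ M) ∧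
    (∀ z ∈ Ball n, ∃ r : ℝ, 0 < r ∧ r < 1 ∧ avg u z r = u z) ∧
    ¬ (∀ z ∈ Ball n, ∀ r : ℝ, 0 < r → r < 1 → avg u z r = u z) := by
  intro n hn
  refine ⟨fun x => (U x : ℂ), Uc_an, ⟨1, Uc_bd⟩, fun z hz => one_radius hn hz, fun h => ?_⟩
  obtain ⟨r, h0, h1, h2⟩ := not_harmonic hn
  exact h2 (h 0 (by simp [Ball]) r h0 h1)

end Pool.Agent.Results.MP_a19bc9_an.Analytic
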